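import Mathlib

/-!
# The local limit law fails for the locally perturbed heavy-tailed planar walk

The chain `S` on `ℤ²` starts at the origin; off the origin its steps have the law `μ` with
`μ (± k e_i) = c k⁻³`, and at the origin its steps are uniform on the four unit vectors. We show
that `sup_x |n log n P(S_n = x) - g (x / √(n log n))|` does not tend to `0`, whatever `C > 0` is
taken in the Gaussian density `g`.

If it did, then `n log n P(S_n = x) → g 0` for each fixed `x`, boundedly. Dominated convergence in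
the one-step equation `P(S_{n+1} = x) = ∑_y P(S_n = y) K(y, x)` would give that
`∑_y K(y, x) = 1 - μ x + ν x` does not depend on `x`, which is false for `x = (2, 0)` and `(1, 1)`.
-/

set_option autoImplicit false

open Filter Topology
open scoped ENNReal

namespace Pool.Agent.Results.MP_0c5cb5_pr.LocalLawFails

/-- The weight `k⁻³` of the points `± k e_1` and `± k e_2`, `k ≥ 1`, and `0` elsewhere. -/
noncomputable def weight (x : ℤ × ℤ) : ℝ≥0∞ :=
  if x ≠ 0 ∧ (x.1 = 0 ∨ x.2 = 0) then ENNReal.ofReal (1 / ((|x.1| + |x.2| : ℤ) : ℝ) ^ 3) else 0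

theorem weight_le (x : ℤ × ℤ) :
    weight x ≤ (if x.2 = 0 then ENNReal.ofReal (1 / |(x.1 : ℝ)| ^ 3) else 0) +
      (if x.1 = 0 then ENNReal.ofReal (1 / |(x.2 : ℝ)| ^ 3) else 0) := by
  unfold weight
  split_ifs with h h2 h1 h1 h2 h1 h1
  · exact absurd (Prod.ext h1 h2) h.1
  · simp [h2]
  · simp [h1]
  · exact absurd h.2 (by simp [h1, h2])
  all_goals simp

theorem weight_sum_ne_top : ∑' x, weight x ≠ ∞ := by
  have hs : Summable fun a : ℤ => 1 / |(a : ℝ)| ^ 3 := by
    have := Real.summable_one_div_int_pow (p := 3) |>.2 (by norm_num)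
    refine (this.abs).congr fun a => ?_
    rw [abs_div, abs_one, abs_pow]
  have h0 : (∑' a : ℤ, ENNReal.ofReal (1 / |(a : ℝ)| ^ 3)) ≠ ∞ := hs.tsum_ofReal_ne_top
  have h1 : ∑' x : ℤ × ℤ, (if x.2 = 0 then ENNReal.ofReal (1 / |(x.1 : ℝ)| ^ 3) else 0) ≠ ∞ := by
    rw [ENNReal.tsum_prod']
    have : ∀ a : ℤ, (∑' b : ℤ, (if (a, b).2 = 0 then ENNReal.ofReal (1 / |(((a, b) : ℤ × ℤ).1 : ℝ)| ^ 3)
        else 0)) = ENNReal.ofReal (1 / |(a : ℝ)| ^ 3) := by
      intro a
      rw [tsum_eq_single 0]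
      · simp
      · intro b hb; simp [hb]
    rw [tsum_congr this]
    exact h0
  have h2 : ∑' x : ℤ × ℤ, (if x.1 = 0 then ENNReal.ofReal (1 / |(x.2 : ℝ)| ^ 3) else 0) ≠ ∞ := by
    rw [ENNReal.tsum_prod', tsum_eq_single 0]
    · simpa using h0
    · intro b hb; simp [hb]
  refine ne_top_of_le_ne_top (ENNReal.add_ne_top.2 ⟨h1, h2⟩) ?_
  rw [← ENNReal.tsum_add]
  exact ENNReal.tsum_le_tsum weight_le

theorem weight_sum_ne_zero : ∑' x, weight x ≠ 0 := by
  intro h
  have := (ENNReal.tsum_eq_zero.1 h) (1, 0)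
  simp [weight] at this

/-- The law `μ` of the steps off the origin: the probability measure on `ℤ²` proportional
to `weight`. -/
noncomputable def mu : PMF (ℤ × ℤ) := PMF.normalize weight weight_sum_ne_zero weight_sum_ne_top

/-- The law of the steps at the origin: uniform on the four unit vectors. -/
noncomputable def nu : PMF (ℤ × ℤ) :=
  PMF.uniformOfFinset {(1, 0), (-1, 0), (0, 1), (0, -1)} (Finset.insert_nonempty _ _)

/-- The law of `S_{n+1}` given `S_n = y`. -/
noncomputable def next (y : ℤ × ℤ) : PMF (ℤ × ℤ) :=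
  if y = 0 then nu else mu.map fun z => y + z

/-- The law of `S_n`. -/
noncomputable def law : ℕ → PMF (ℤ × ℤ)
  | 0 => PMF.pure 0
  | n + 1 => (law n).bind next

/-- The density of `C W(1)`, with `W` the standard planar Brownian motion. -/
noncomputable def gauss (C : ℝ) (y : ℝ × ℝ) : ℝ :=
  (2 * Real.pi * C ^ 2)⁻¹ * Real.exp (-(y.1 ^ 2 + y.2 ^ 2) / (2 * C ^ 2))

/-- The supremum over `x ∈ ℤ²` of `|n log n P(S_n = x) - g (x / √(n log n))|`. -/
noncomputable def error (C : ℝ) (n : ℕ) : ℝ :=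
  ⨆ x : ℤ × ℤ, |n * Real.log n * (law n x).toReal -
    gauss C (x.1 / √(n * Real.log n), x.2 / √(n * Real.log n))|

/-! ### Proof -/

theorem mu_ne_top (x : ℤ × ℤ) : mu x ≠ ∞ := mu.apply_ne_top x

theorem next_apply (y x : ℤ × ℤ) : next y x = if y = 0 then nu x else mu (x - y) := by
  unfold next
  split_ifs with h
  · rfl
  · rw [PMF.map_apply, tsum_eq_single (x - y)]
    · simp
    · intro z hz
      rw [if_neg]
      rintro rfl
      exact hz (by simp)

theorem hasSum_toReal (q : PMF (ℤ × ℤ)) : HasSum (fun y => (q y).toReal) 1 := by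
  have h2 := ENNReal.summable_toReal q.tsum_coe_ne_top
  have h3 : ∑' y, (q y).toReal = 1 := by
    rw [← ENNReal.tsum_toReal_eq q.apply_ne_top, q.tsum_coe, ENNReal.toReal_one]
  rw [← h3]; exact h2.hasSum

theorem hasSum_sub (q : PMF (ℤ × ℤ)) (x : ℤ × ℤ) : HasSum (fun y => (q (x - y)).toReal) 1 :=
  ((Equiv.subLeft x).hasSum_iff (f := fun y => (q y).toReal)).2 (hasSum_toReal q)

theorem hasSum_next (x : ℤ × ℤ) :
    HasSum (fun y => (next y x).toReal) (1 + ((nu x).toReal - (mu x).toReal)) := by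
  have h1 := (hasSum_sub mu x).add (hasSum_ite_eq (0 : ℤ × ℤ) ((nu x).toReal - (mu x).toReal))
  have h2 : (fun y => (next y x).toReal) = fun y => (mu (x - y)).toReal +
      (if y = 0 then (nu x).toReal - (mu x).toReal else 0) := by
    funext y
    rw [next_apply]
    by_cases h : y = 0
    · rw [if_pos h, if_pos h, h, sub_zero]; ring
    · rw [if_neg h, if_neg h, add_zero]
  rw [h2]
  exact h1

theorem law_succ (n : ℕ) (x : ℤ × ℤ) :
    (law (n + 1) x).toReal = ∑' y, (law n y).toReal * (next y x).toReal := by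
  rw [law, PMF.bind_apply, ENNReal.tsum_toReal_eq]
  · exact tsum_congr fun y => ENNReal.toReal_mul
  · intro y
    exact ENNReal.mul_ne_top ((law n).apply_ne_top y) ((next y).apply_ne_top x)

theorem mu_two : 0 < (mu (2, 0)).toReal := by
  rw [ENNReal.toReal_pos_iff]
  refine ⟨?_, (mu.apply_ne_top _).lt_top⟩
  rw [mu, PMF.normalize_apply]
  refine ENNReal.mul_pos ?_ ?_
  · simp [weight]
  · exact ENNReal.inv_ne_zero.2 weight_sum_ne_top

theorem mu_one : mu (1, 1) = 0 := by
  rw [mu, PMF.normalize_apply]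
  simp [weight]

theorem nu_two : nu (2, 0) = 0 := by
  exact PMF.uniformOfFinset_apply_of_notMem _ (by decide)

theorem nu_one : nu (1, 1) = 0 := by
  exact PMF.uniformOfFinset_apply_of_notMem _ (by decide)

/-- The norming sequence. -/
noncomputable def nrm (n : ℕ) : ℝ := n * Real.log n

theorem nrm_nonneg (n : ℕ) : 0 ≤ nrm n := mul_nonneg (Nat.cast_nonneg n) (Real.log_natCast_nonneg n)

theorem nrm_tendsto : Tendsto nrm atTop atTop := by
  have h1 : Tendsto (fun n : ℕ => (n : ℝ)) atTop atTop := tendsto_natCast_atTop_atTop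
  exact h1.atTop_mul_atTop₀ (Real.tendsto_log_atTop.comp h1)

theorem nrm_mono (n : ℕ) : nrm n ≤ nrm (n + 1) := by
  rcases Nat.eq_zero_or_pos n with rfl | h
  · simp [nrm]
  · have h1 : (0 : ℝ) < n := by exact_mod_cast h
    have h2 : (n : ℝ) ≤ ((n + 1 : ℕ) : ℝ) := by push_cast; linarith
    exact mul_le_mul h2 (Real.log_le_log h1 h2) (Real.log_natCast_nonneg n) (Nat.cast_nonneg _)

theorem gauss_nonneg (C : ℝ) (y : ℝ × ℝ) : 0 ≤ gauss C y := by
  unfold gauss; positivity

theorem gauss_le (C : ℝ) (y : ℝ × ℝ) : gauss C y ≤ gauss C 0 := by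
  unfold gauss
  refine mul_le_mul_of_nonneg_left (Real.exp_le_exp.2 ?_) (by positivity)
  have : -(y.1 ^ 2 + y.2 ^ 2) / (2 * C ^ 2) ≤ 0 :=
    div_nonpos_of_nonpos_of_nonneg (by nlinarith [sq_nonneg y.1, sq_nonneg y.2]) (by positivity)
  simpa using this

theorem gauss_pos {C : ℝ} (hC : 0 < C) : 0 < gauss C 0 := by
  unfold gauss; positivity

theorem law_le_one (n : ℕ) (x : ℤ × ℤ) : (law n x).toReal ≤ 1 := by
  have := (law n).coe_le_one x
  simpa using ENNReal.toReal_mono ENNReal.one_ne_top this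

theorem le_error (C : ℝ) (n : ℕ) (x : ℤ × ℤ) :
    |nrm n * (law n x).toReal - gauss C (x.1 / √(nrm n), x.2 / √(nrm n))| ≤ error C n := by
  unfold error
  refine le_ciSup (f := fun x : ℤ × ℤ => |n * Real.log n * (law n x).toReal -
    gauss C (x.1 / √(n * Real.log n), x.2 / √(n * Real.log n))|) ?_ x
  refine ⟨nrm n + gauss C 0, ?_⟩
  rintro _ ⟨y, rfl⟩
  have h1 := gauss_nonneg C (y.1 / √(n * Real.log n), y.2 / √(n * Real.log n))
  have h2 := gauss_le C (y.1 / √(n * Real.log n), y.2 / √(n * Real.log n))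
  have h3 : (n * Real.log n * (law n y).toReal : ℝ) ≤ nrm n :=
    mul_le_of_le_one_right (nrm_nonneg n) (law_le_one n y)
  have h4 : (0 : ℝ) ≤ n * Real.log n * (law n y).toReal :=
    mul_nonneg (nrm_nonneg n) ENNReal.toReal_nonneg
  have h5 := nrm_nonneg n
  rw [abs_le]
  constructor <;> linarith

theorem gauss_tendsto (C : ℝ) (x : ℤ × ℤ) :
    Tendsto (fun n : ℕ => gauss C (x.1 / √(nrm n), x.2 / √(nrm n))) atTop (𝓝 (gauss C 0)) := by
  have h1 : Tendsto (fun n : ℕ => √(nrm n)) atTop atTop := Real.tendsto_sqrt_atTop.comp nrm_tendsto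
  have h2 : Tendsto (fun n : ℕ => ((x.1 : ℝ) / √(nrm n), (x.2 : ℝ) / √(nrm n))) atTop
      (𝓝 ((0 : ℝ), (0 : ℝ))) :=
    (h1.const_div_atTop _).prodMk_nhds (h1.const_div_atTop _)
  have h3 : Continuous (gauss C) := by
    unfold gauss; fun_prop
  exact (h3.tendsto (0 : ℝ × ℝ)).comp h2

/-- **The local limit law fails**: for every `C > 0` the supremum over `x ∈ ℤ²` of
`|n log n P(S_n = x) - g (x / √(n log n))|` does not tend to `0`. -/
theorem result (C : ℝ) (hC : 0 < C) : ¬ Tendsto (error C) atTop (𝓝 0) := by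
  intro h
  set γ := gauss C 0 with hγ
  have hγ0 : 0 < γ := gauss_pos hC
  -- pointwise limits
  have h1 : ∀ x, Tendsto (fun n => nrm n * (law n x).toReal) atTop (𝓝 γ) := by
    intro x
    have h2 : Tendsto (fun n => nrm n * (law n x).toReal -
        gauss C (x.1 / √(nrm n), x.2 / √(nrm n))) atTop (𝓝 0) :=
      squeeze_zero_norm (fun n => le_error C n x) h
    have h3 := h2.add (gauss_tendsto C x)
    simpa using h3
  -- dominated convergence
  have h2 : ∀ x, Tendsto (fun n => nrm n * (law (n + 1) x).toReal) atTop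
      (𝓝 (γ * (1 + ((nu x).toReal - (mu x).toReal)))) := by
    intro x
    have h3 : (fun n => nrm n * (law (n + 1) x).toReal) = fun n =>
        ∑' y, (nrm n * (law n y).toReal) * (next y x).toReal := by
      funext n
      rw [law_succ, ← tsum_mul_left]
      exact tsum_congr fun y => by ring
    rw [h3, ← (hasSum_next x).tsum_eq, ← tsum_mul_left]
    refine tendsto_tsum_of_dominated_convergence (bound := fun y => (1 + γ) * (next y x).toReal)
      ((hasSum_next x).summable.mul_left _) (fun y => (h1 y).mul_const _) ?_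
    filter_upwards [h.eventually (eventually_le_nhds zero_lt_one)] with n hn y
    have h4 := (le_error C n y).trans hn
    have h5 := gauss_le C (y.1 / √(nrm n), y.2 / √(nrm n))
    have h6 : (0 : ℝ) ≤ nrm n * (law n y).toReal :=
      mul_nonneg (nrm_nonneg n) ENNReal.toReal_nonneg
    rw [Real.norm_of_nonneg (mul_nonneg h6 ENNReal.toReal_nonneg)]
    refine mul_le_mul_of_nonneg_right ?_ ENNReal.toReal_nonneg
    have h7 := (abs_le.1 h4).2
    linarith
  -- compare the points `(2, 0)` and `(1, 1)`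
  have h3 : Tendsto (fun n => nrm n * ((law (n + 1) (1, 1)).toReal - (law (n + 1) (2, 0)).toReal))
      atTop (𝓝 (γ * (mu (2, 0)).toReal)) := by
    have h4 := (h2 (1, 1)).sub (h2 (2, 0))
    rw [mu_one, nu_one, nu_two] at h4
    convert h4 using 2
    · ring
    · simp; ring
  have h4 : Tendsto (fun n => nrm n * ((law (n + 1) (1, 1)).toReal - (law (n + 1) (2, 0)).toReal))
      atTop (𝓝 0) := by
    have h5 := ((h1 (1, 1)).sub (h1 (2, 0))).comp (tendsto_add_atTop_nat 1)
    rw [sub_self] at h5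
    refine squeeze_zero_norm (fun n => ?_) (h5.norm.trans (by simp))
    simp only [Function.comp_apply]
    rw [← mul_sub, norm_mul, norm_mul, Real.norm_of_nonneg (nrm_nonneg _),
      Real.norm_of_nonneg (nrm_nonneg _)]
    exact mul_le_mul_of_nonneg_right (nrm_mono n) (norm_nonneg _)
  have h5 := tendsto_nhds_unique h3 h4
  exact absurd h5 (mul_pos hγ0 mu_two).ne'

end Pool.Agent.Results.MP_0c5cb5_pr.LocalLawFails
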